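import Pool.Agent.TH571.SGroup

/-!
# `C_p(X)` and `C_c(X)` may be s-groups without being Frechet-Urysohn

A Hausdorff topological group is an s-group if all its sequentially continuous homomorphisms to
Hausdorff topological groups are continuous.  Question: if `C_p(X)` (or `C_c(X)`) is an s-group, is
it Frechet-Urysohn?  The answer is negative for both function spaces, in ZFC: for a discrete space
`X` of cardinality `ℵ₁` both `C_p(X)` and `C_c(X)` are s-groups and neither is Frechet-Urysohn.

Proof.  Let `φ` be a sequentially continuous homomorphism on `ℝ ^ X`, let `V n` be closed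
neighbourhoods of the identity with `V (n+1) * V (n+1) ⊆ V n`, and call `B ⊆ X` null if `φ` maps all
functions supported in `B` into `⋂ V n`.  The null sets form a sigma-ideal, and a disjoint family of
sets that are not null is countable (otherwise infinitely many functions with disjoint supports have
values outside one `V n`, although they tend to zero).  By the Ulam matrix on `ω₁` the complement of
the countable set of all points that are not null is null; on the countable part `ℝ ^ A` is
metrizable.
-/

set_option autoImplicit false

open Filter Topology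

namespace Pool.Agent.Results.MP_174f4a_gt.DiscreteAlephOne

universe u

/-- The abelian topological group `G` (written additively) is an s-group: it is a Hausdorff
topological group, and every sequentially continuous homomorphism `φ` from `G` to a Hausdorff
topological group `H` (written multiplicatively, not assumed to be commutative) is continuous. -/
def IsSGroup (G : Type u) [AddCommGroup G] [TopologicalSpace G] : Prop :=
  T2Space G ∧ IsTopologicalAddGroup G ∧
    ∀ (H : Type u) [Group H] [TopologicalSpace H] [IsTopologicalGroup H] [T2Space H]
      (φ : Multiplicative G →* H),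
      (∀ (x : ℕ → G) (a : G), Tendsto x atTop (𝓝 a) →
        Tendsto (fun n => φ (Multiplicative.ofAdd (x n))) atTop
          (𝓝 (φ (Multiplicative.ofAdd a)))) →
      Continuous (fun g : G => φ (Multiplicative.ofAdd g))

/-- For every discrete space `X` of cardinality `ℵ₁` (the successor of `ℵ₀`) the groups `C_p(X)`
(Mathlib's `continuousAddSubgroup X ℝ`, the group of all continuous functions as a subgroup of the
product `X → ℝ`, with the topology of pointwise convergence) and `C_c(X)` (Mathlib's `C(X, ℝ)`,
which carries the compact-open topology) are s-groups and are not Frechet-Urysohn; in particular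
there is a space with these properties. -/
theorem result :
    (∀ (X : Type u) [TopologicalSpace X] [DiscreteTopology X],
      Cardinal.mk X = Order.succ Cardinal.aleph0 →
      (IsSGroup (continuousAddSubgroup X ℝ) ∧ ¬ FrechetUrysohnSpace (continuousAddSubgroup X ℝ)) ∧
      (IsSGroup C(X, ℝ) ∧ ¬ FrechetUrysohnSpace C(X, ℝ))) ∧
    ∃ (X : Type u) (_ : TopologicalSpace X),
      (IsSGroup (continuousAddSubgroup X ℝ) ∧ ¬ FrechetUrysohnSpace (continuousAddSubgroup X ℝ)) ∧
      (IsSGroup C(X, ℝ) ∧ ¬ FrechetUrysohnSpace C(X, ℝ)) := by
  have main : ∀ (X : Type u) [TopologicalSpace X] [DiscreteTopology X],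
      Cardinal.mk X = Order.succ Cardinal.aleph0 →
      (IsSGroup (continuousAddSubgroup X ℝ) ∧ ¬ FrechetUrysohnSpace (continuousAddSubgroup X ℝ)) ∧
      (IsSGroup C(X, ℝ) ∧ ¬ FrechetUrysohnSpace C(X, ℝ)) := by
    intro X _ _ hX
    rw [Cardinal.succ_aleph0] at hX
    have hunc : Uncountable X := by
      rw [← Cardinal.aleph0_lt_mk_iff, hX]
      exact Cardinal.aleph0_lt_aleph_one
    let e : continuousAddSubgroup X ℝ ≃ₜ (X → ℝ) :=
      { toFun := fun f => f.1
        invFun := fun f => ⟨f, continuous_of_discreteTopology⟩
        left_inv := fun _ => rfl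
        right_inv := fun _ => rfl
        continuous_toFun := continuous_subtype_val
        continuous_invFun := continuous_id.subtype_mk _ }
    have hfun := TH571.SG.seqHomCont_fun.{u, u} X hX
    refine ⟨⟨⟨inferInstance, inferInstance, ?_⟩, ?_⟩, ⟨⟨inferInstance, inferInstance, ?_⟩, ?_⟩⟩
    · exact TH571.SG.SeqHomCont.of_homeo e (fun _ _ => rfl) hfun
    · exact TH571.SG.not_frechet_of_homeo e (TH571.SG.not_frechet X)
    · exact TH571.SG.SeqHomCont.of_homeo (ContinuousMap.homeoFnOfDiscrete (X := X) (Y := ℝ))
        (fun _ _ => rfl) hfun
    · exact TH571.SG.not_frechet_of_homeo (ContinuousMap.homeoFnOfDiscrete (X := X) (Y := ℝ))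
        (TH571.SG.not_frechet X)
  obtain ⟨X, hX⟩ : ∃ X : Type u, Cardinal.mk X = Order.succ Cardinal.aleph0 :=
    ⟨_, Cardinal.mk_out _⟩
  let _ : TopologicalSpace X := ⊥
  have : DiscreteTopology X := ⟨rfl⟩
  exact ⟨main, X, _, main X hX⟩

end Pool.Agent.Results.MP_174f4a_gt.DiscreteAlephOne
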